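import Mathlib
import Pool.Agent.Y228.HX.S4

/-!
# The strong monodromy conjecture for the `χ_y`-genus: generic coefficients, all Newton polyhedra

Let `f = ∑_j c_j x ^ (v j) + h ∈ ℂ[x_1, …, x_n]`, `f(0) = 0`, in any number of variables, where `h` is an
ARBITRARY polynomial over a subfield `F` of `ℂ` (`F = ℂ` is allowed), whose exponents are in the Newton
polyhedron `conv {v j} + ℝ_{≥ 0} ^ n` and different from the `v j`, and the coefficients `c_j` are generic:
`g(c) ≠ 0` for a certain nonzero polynomial `g` with coefficients in `F`. So for given `h` only the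
coefficients at the vertices of the Newton polyhedron have to be generic. There is NO condition on the
Newton polyhedron.

The motivic zeta functions `Z_{f,0}^mot` and `Z_f^mot` of the problem are specialised by a ring
homomorphism `φ : 𝓜_ℂ → ℚ(u)` which is the `χ_y`-genus on the nondegenerate hypersurfaces in tori
(`ChiY φ`), that is `φ(𝕃) = u` and `φ` satisfies the formula of Danilov and Khovanskii. The homomorphism
given by the Hodge-Deligne polynomial, `[X] ↦ E(X; u, 1)`, which is
`∑_{p,q} (-1) ^ (p + q) h^{p,q}(X) u ^ p` for smooth projective `X`, has this property, by theorems of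
Deligne and of Danilov and Khovanskii (1986). These theorems are not formalised here; the result is
for all `φ` with this property.

The power series `φ(Z_{f,0}^mot)`, and if `f` is homogeneous or convenient (some power of each variable
is one of the `x ^ (v j)`) also `φ(Z_f^mot)`, lie in the subring of `ℚ(u)[[T]]` generated over the field
`ℚ(u)` by `T` and finitely many `1 / (1 - u ^ a T ^ b)` with `a < 0 < b` such that `a / b` is a root of
the local Bernstein-Sato polynomial `b_{f,0}`, hence of `b_f`. So every pole of `φ(Z_{f,0}^mot)`, `φ(Z_f^mot)`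
is a root of `b_{f,0}`, `b_f`: this is the statement of Q2 and Q1 after the specialisation `φ`.

Method. If the `c_j` are algebraically independent over `F` the functional equation gives an algebraic
relation. If `-σ` is not a root, it follows that for the polyhedra with heights `m ω_j` over the `v j`,
`m` large and `ω` generic, the sums over the cells have no pole at the level `σ`; a linear recurrence in
`m` brings this back to `m = 0`, where the regular triangulation with heights `ω` computes the Ehrhart
series of the faces, hence the `χ_y`-genera of the face hypersurfaces (`Pool.Agent.Y228.HX`). Gröbner bases in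
the Weyl algebra over `F(c_1, …, c_r)` (starting library) compare the generic Bernstein-Sato
polynomial with the one of a single member.
-/

set_option autoImplicit false

namespace Pool.Agent.Results.MP_b07157_ag.ChiYGenericCoefficients

open MvPolynomial Pool.Agent.W428.MOT
open Pool.Agent.W375.MG (zetaOrd)
open Pool.Agent.TH216.MF (ratR)
open Pool.Agent.W425.ND (spa)
open Pool.Agent.Y228.HX (ChiY uX Conv InNP)

/-- **The strong monodromy conjecture for the motivic zeta function, specialised to the `χ_y`-genus, for
the polynomials `f = ∑_j c_j x ^ (v j) + h` with generic coefficients `c_j`, all Newton polyhedra, any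
number of variables: local (Q2), and global (Q1) for homogeneous or convenient `f`.**

`spa v c` is the polynomial `∑_j c_j x ^ (v j)`. `InNP v w` says that `w` is in the Newton polyhedron
`conv {v j} + ℚ_{≥ 0} ^ n`: there are rational `l j ≥ 0` with `∑_j l j = 1` and `∑_j l j * v j i ≤ w i` for
all `i`. `Conv v` (convenient) says that some power of each variable is one of the `x ^ (v j)`.

`zetaOrd f W` is the motivic zeta function `𝕃 ^ (- n) ∑_l [{φ : φ(0) ∈ W, ord f(φ) = l}] (𝕃 ^ (- n) T) ^ l`
of the arcs with origin in `W`; `W = {0}` gives the local motivic zeta function of `f` at the origin, and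
`W = Set.univ` the global one. `MK ℂ = K_0(Var_ℂ)[𝕃⁻¹]`, `PowerSeries.map φ` applies `φ` to the
coefficients, and `ratR uX S` is the subring of `ℚ(u)[[T]]` generated over `ℚ(u)` by `T` and the series
`1 / (1 - u ^ a T ^ b)`, `(a, b) ∈ S`. The finite set `S` does not depend on `c` and `φ`.

`IsLocalBFunction f b` says that `b(s) f ^ s = P(s) f ^ (s + 1)` for a differential operator `P(s)`
with (formal, in particular convergent or polynomial) power series at the origin as coefficients;
`b_{f,0}` and `b_f` are such polynomials `b`.

`ChiY φ` says that `φ(𝕃) = u` and that for all `n`, all families of distinct exponents `v j ∈ ℕ ^ n`,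
`j ∈ κ`, and all coefficients `c_j ∈ K \ 0` such that `g = ∑_{j ∈ κ} c_j x ^ (v j)` is nondegenerate for all
the faces of its Newton polytope `P` (`NonL v κ c`: for every `w ∈ ℤ ^ n` the sum of the terms on which
`w` is minimal and its `x_i ∂_i` have no common zero in the torus over the algebraic closure of `K`;
here `K = ℂ`) the class of the hypersurface `g = 0` in the torus of dimension `n` (`ZT v κ c`) has the
value `((u - 1) ^ n + (u - 1) ^ (n + 1) E(u)) / u`, where `E ∈ ℚ(u)` is the rational function with the
power series expansion `∑_k #(k P ∩ ℤ ^ n) u ^ k` at `0` (`Expd E`; `Dil v κ k` is `k P ∩ ℤ ^ n`). -/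
theorem result {n r : ℕ} (hr : 0 < r) (F : Subfield ℂ) (v : Fin r → Fin n → ℕ)
    (hv : Function.Injective v) (hv0 : ∀ j, v j ≠ 0)
    (h : MvPolynomial (Fin n) F) (hh : ∀ w ∈ h.support, InNP v fun i => w i)
    (hvh : ∀ w ∈ h.support, ∀ j, ¬ ∀ i, w i = v j i) :
    ∃ (g : MvPolynomial (Fin r) F) (S : Finset (ℤ × ℤ)), g ≠ 0 ∧ (∀ p ∈ S, p.1 < 0 ∧ 0 < p.2) ∧
      ∀ c : Fin r → ℂ, aeval c g ≠ 0 →
        (∀ p ∈ S, ∀ b : Polynomial ℂ, Pool.Agent.H628R4.TP.IsLocalBFunction
          (spa v c + MvPolynomial.map (algebraMap F ℂ) h) b → b.eval ((p.1 : ℂ) / p.2) = 0) ∧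
        ∀ φ : MK ℂ →+* RatFunc ℚ, ChiY φ →
          PowerSeries.map φ (zetaOrd (spa v c + MvPolynomial.map (algebraMap F ℂ) h) {0}) ∈
            ratR uX S ∧
          ((∃ d : ℕ, (∀ j, ∑ i, v j i = d) ∧ ∀ w ∈ h.support, ∑ i, w i = d) ∨ Conv v →
            PowerSeries.map φ (zetaOrd (spa v c + MvPolynomial.map (algebraMap F ℂ) h)
              Set.univ) ∈ ratR uX S) :=
  Pool.Agent.Y228.HX.strong hr v hv hv0 h hh hvh

end Pool.Agent.Results.MP_b07157_ag.ChiYGenericCoefficients
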