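import Pool.Agent.TH192.MT.IdJet

set_option autoImplicit false

/-! # The strong monodromy conjecture for forms over determinantal ideals

Let `x` be the generic matrix of one of the three spaces `S` of matrices: all `m × n` matrices, the
symmetric `n × n` matrices, the skew symmetric `n × n` matrices (`MSpace`). For `t < T` let
`F_t = ∑_j y_{t,j} M_j(x)`, where the `M_j` are the `p t`-minors of `x` (the Pfaffians of size
`2 (p t)` in the skew symmetric case), `p t < min (m, n)`, `p t < n`, or `2 (p t) + 1 < n`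
(`Small`), and the `y_{t,j}` are further variables, separate for each `t`. Let
`f = ∏ t, F_t ^ a t`, `a t > 0` (`detForm`, `formC`).

The motivic zeta functions are defined with jets: in `𝓜 = K₀(Var_ℂ)[𝕃⁻¹]`,
`Z_f = 𝕃 ^ (-n) ∑_{d ≥ 0} [X_d] 𝕃 ^ (-n d) T ^ d`, where `X_d` is the set of the `d`-jets `φ` with
`ord_t f(φ) = d` (`zetaG`, with `zetaM`), and `Z_{f,0} = 𝕃 ^ (-n) ∑_{d ≥ 1} [X_d^0] 𝕃 ^ (-n d) T ^ d`,
where `X_d^0` is the set of the `φ ∈ X_d` with `φ(0) = 0` (`zetaO`); by the change of variables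
formula of Denef and Loeser these are the sums over the strata of a resolution. No resolution is
used here: the jets are divided by the orders of the ideals of the minors; where an entry (or, for
symmetric and skew symmetric matrices, a principal minor of size `1` or `2`) is a unit, the Schur
complement reduces to a smaller matrix; where `x(0) = 0` one divides by `t`, which gives the
denominators `1 - 𝕃 ^ (-ν_d) T ^ (N_d)`, `ν_d` the codimension of the matrices of rank `≤ d`
(`≤ 2 d`), `N_d = ∑ t, a t max (p t - d, 0)`; the linear conditions on the jets of `y` give the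
denominators `1 - 𝕃 ^ (-1) T ^ (a t)`.

The proof for the roots: a functional equation of `f` gives a functional equation of the product of
the powers `I_t ^ a t` of the ideals of the minors, with the same `b` (`locEq_of_powProd`), and the
exceptional divisors over the rank loci are Rees divisors of this ideal; the roots `-1 / a t` come
from the strict transforms (`strict_root`). -/

namespace Pool.Agent.Results.MP_b07157_ag.DeterminantalForms

open MvPolynomial Pool.Agent.H628R4.TP Pool.Agent.TH192.DT Pool.Agent.TH192.MT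
  Pool.Agent.W428.MOT

/-- The motivic zeta function `𝕃 ^ (-n) ∑_{d ≥ 0} [X_d] 𝕃 ^ (-n d) T ^ d`, `X_d` the set of the
`d`-jets on which `f` has the order `d`. -/
noncomputable def zetaG {σ : Type} [Fintype σ] (f : MvPolynomial σ ℂ) : PowerSeries (MK ℂ) :=
  PowerSeries.C (((Lu ℂ) ^ (-(Fintype.card σ : ℤ)) : (MK ℂ)ˣ) : MK ℂ) *
    zetaM f Set.univ {c | c ≠ 0}

/-- `s₀` is a pole of `Z ∈ 𝓜[[T]]`: `Z` does not belong to the subring
`𝓜[T][(1 - 𝕃 ^ (-a) T ^ b)⁻¹ : a ∈ ℤ, b > 0, a / b ≠ -s₀]` (the pairs `p` are the `(-a, b)`). -/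
def IsPole (Z : PowerSeries (MK ℂ)) (s₀ : ℂ) : Prop :=
  Z ∉ ratRing ℂ {p : ℤ × ℤ | 0 < p.2 ∧ (p.1 : ℂ) / p.2 ≠ s₀}

/-- The polynomial `f = ∏ t, F_t ^ a t`, `F_t = ∑_j y_{t,j} M_j(x)`. -/
noncomputable def formC (S : MSpace) {T : ℕ} (p a : Fin T → ℕ) :
    MvPolynomial ((Σ t, S.Idx (p t)) ⊕ S.Var) ℂ := map (Int.castRingHom ℂ) (detForm S p a)

/-- **The strong monodromy conjecture, global (1) and local at the origin (2), for
`f = ∏ t, F_t ^ a t`**, `F_t` the forms with the minors of size `p t` of a generic, symmetric or skew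
symmetric matrix as coefficients. (1) Every pole of `Z_f` is a root of every `b` with
`b(s) f ^ s = P(s) f ^ (s + 1)`, in particular of the Bernstein-Sato polynomial of `f`. (2) Every pole of
`Z_{f,0}` is a root of every `b` of this kind with analytic `P` at the origin (`IsLocalBFunction`), in
particular of the local Bernstein-Sato polynomial of `f`. -/
theorem result (S : MSpace) (T : ℕ) (p a : Fin T → ℕ) (hp : ∀ t, S.Small (p t))
    (ha : ∀ t, 0 < a t) :
    (∀ s₀ : ℂ, IsPole (zetaG (formC S p a)) s₀ →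
      ∀ b : Polynomial ℂ, IsBFunction (formC S p a) b → b.eval s₀ = 0) ∧
    ∀ s₀ : ℂ, IsPole (zetaO (formC S p a)) s₀ →
      ∀ b : Polynomial ℂ, IsLocalBFunction (formC S p a) b → b.eval s₀ = 0 := by
  have hG : zetaG (map (Int.castRingHom ℂ) (detForm S p a)) ∈
      ratRing ℂ (formPairs S p a : Set (ℤ × ℤ)) :=
    Subalgebra.mul_mem _ (rat_C (Lu ℂ) _) (zetaM_mem S T p a hp ha Constr.univ good_ne)
  have hO := zetaO_mem (K := ℂ) S T p a hp ha
  have hr := form_roots S T p a hp ha
  refine ⟨fun s₀ hs b hb => ?_, fun s₀ hs b hb => ?_⟩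
  · by_contra h0
    have h1 : (formPairs S p a : Set (ℤ × ℤ)) ⊆
        {p : ℤ × ℤ | 0 < p.2 ∧ (p.1 : ℂ) / p.2 ≠ s₀} := by
      intro q hq
      exact ⟨(hr q hq).2.1, fun h => h0 (by rw [← h]; exact (hr q hq).2.2.1 b hb)⟩
    exact hs (rat_mono (Lu ℂ) h1 hG)
  · by_contra h0
    have h1 : (formPairs S p a : Set (ℤ × ℤ)) ⊆
        {p : ℤ × ℤ | 0 < p.2 ∧ (p.1 : ℂ) / p.2 ≠ s₀} := by
      intro q hq
      exact ⟨(hr q hq).2.1, fun h => h0 (by rw [← h]; exact (hr q hq).2.2.2 b hb)⟩
    exact hs (rat_mono (Lu ℂ) h1 hO)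

end Pool.Agent.Results.MP_b07157_ag.DeterminantalForms
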