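import Mathlib
import Pool.Agent.Y231.N4.G1
import Pool.Agent.TH216.LX.Lx4

/-!
# The strong monodromy conjecture in four variables, generic coefficients

Let `f = ∑_j c_j x ^ (v j) + h ∈ ℂ[x_1, …, x_4]`, where the `v j` are the vertices of their Newton
polyhedron `conv {v j} + ℝ_{≥ 0} ^ 4`, `h` is an ARBITRARY polynomial over a subfield `F` of `ℂ`
(`F = ℂ` is allowed) whose exponents are in this polyhedron, and the coefficients `c_j` are generic:
`g(c) ≠ 0` for a certain nonzero polynomial `g` with coefficients in `F`. There is NO condition on the
Newton polyhedron, and the singularities need not be isolated.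

* Local (Q2): every pole of the local motivic zeta function of `f` at the origin is a root of the
local Bernstein-Sato polynomial `b_{f,0}`.
* Global (Q1): every pole of the motivic zeta function of `f` is a root of `b_f` if `f` is convenient,
and also if `f` is homogeneous; if `h = 0`, or more generally under the condition `GlobOK` on the
exponents of `h`, every pole `≠ -2` is a root of `b_f`, and also `-2` if `f` does not vanish
identically on a coordinate subspace of codimension two.

Method. The functional equation gives, for algebraically independent `c_j`, an identity in a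
polynomial ring with one variable for every `v j`.

(1) Roots. The candidate pole of a facet of the Newton polyhedron is a root if the facet contains
a simplex which is not `B1`, if it contains a circuit such that more of the coefficients of the
relation can be made nonnegative than there are negative integers among the coordinates of
`-(1, …, 1)` (`CircP`), or if `-(1, …, 1)` is a combination of independent vertices of a lower face
without negative integers as coefficients (`PntP`).

(2) Facets. In four variables every other facet whose candidate pole is not `-1` or `-2` is a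
simplex, is `B1`, or it is compact and `B2`: the values of two of the coordinates at the vertices are
`(0, 0)`, `(1, 0)` or `(0, 1)`. These are the facets with `B1`-like behaviour without apex which appear
in the work of Esterov, Lemahieu and Takeuchi on the eigenvalues of the monodromy.

(3) Faces. If all the facets through a face have the candidate pole `-σ`, `σ ≠ 1, 2`, and none of
them gives a root, then the face is a simplex (in a suitable sense), or all these facets are `B1`, or
all are `B2`, in common directions.

(4) The candidate pole `-2`. If there is a permutation `π` of the variables, not a cycle of length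
four, such that all the `x_i x_{π(i)}` are among the `x ^ (v j)`, then the origin is a nondegenerate
critical point of `f` for generic coefficients, and `-2` is a root of `b_{f,0}`. Otherwise a variant of
(3) holds for `σ = 2` too.

(5) Zeta function. For the `B2`-faces the part of `f` which is linear in two variables `x_i`, `x_l`
gives a further linear relation between the classes of the zero sets in the tori of the polynomials
of the faces `τ_0`, `τ_0 ∪ τ_1`, `τ_0 ∪ τ_2`, `τ_0 ∪ τ_1 ∪ τ_2`: in four variables, three polynomials in the
other two variables which are quasi-homogeneous for common positive weights have no common zero for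
generic coefficients. With the relations for the `B1`-faces and the identity for the functional
equation, the factors `1 - q ^ (-a) T ^ N` with `a / N = σ` of the universal series cancel for every
`q ≥ 2` if `-σ` is not a root; hence they cancel identically and `q` can be replaced by `𝕃`. The arcs
whose origin is in the torus of a coordinate subspace `≠ {0}` on which `f` vanishes are treated in
the same way; for them only `B1`-relations are needed, except for `σ = 2`.
-/

set_option autoImplicit false

namespace Pool.Agent.Results.MP_b07157_ag.FourVariablesLocal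

open MvPolynomial Pool.Agent.W428.MOT Pool.Agent.W375.MG Pool.Agent.W425.MM
open Pool.Agent.TH216.HD Pool.Agent.TH216.HDL
open Pool.Agent.Y231.N4 (GlobOK NoP2 main8)

/-- **The strong monodromy conjecture for the motivic zeta functions of the polynomials
`f = ∑_j c_j x ^ (v j) + h` in four variables with generic coefficients `c_j`: locally at the origin
(Q2) for all Newton polyhedra, globally (Q1) under conditions which hold for convenient `f` and for
homogeneous `f`.**

`poly v c h` is the polynomial `f = ∑_j c_j x ^ (v j) + h`. `InPoly v w` says that `w` is in the Newton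
polyhedron `conv {v j} + ℝ_{≥ 0} ^ 4`. `Vertices v` says that the `v j` are the vertices of this
polyhedron: no `v j` is in the Newton polyhedron of the other `v k`.

`zetaOrd f W` is the motivic zeta function `𝕃 ^ (- 4) ∑_l [{φ : φ(0) ∈ W, ord f(φ) = l}] (𝕃 ^ (- 4) T) ^ l`
of the arcs with origin in `W`; `W = {0}` gives the local motivic zeta function of `f` at the origin,
`W = Set.univ` the global one.
`IsPole Z s₀` says that `Z` is not in the ring generated by `T` and the `1 / (1 - 𝕃 ^ (-a) T ^ b)`,
`b > 0`, `-a / b ≠ s₀`. `IsLocalBFunction f b` says that `b(s) f ^ s = P(s) f ^ (s + 1)` for a differential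
operator `P(s)` with (formal, in particular convergent) power series at the origin as coefficients.
The Bernstein-Sato polynomial `b_{f,0}` is the monic one of least degree of these polynomials (for
convergent power series). `IsBFunction f b` is the same with `P(s)` in the Weyl algebra.

`NoP2 v` says that `f` does not vanish on a coordinate subspace of codimension two. `GlobOK v h` says
the following for every coordinate subspace `{x_i = 0, i ∈ J}`, except the origin, on which `f`
vanishes: if a `v j` has a coordinate `1` in `J`, then no exponent of `h` which is not one of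
the `v k` has the same coordinates in `J` as `v j`. For convenient `f` both are true, and `GlobOK` is
true for `h = 0`. -/
theorem result {r : ℕ} (hr : 0 < r) (F : Subfield ℂ) (v : Fin r → Fin 4 → ℕ)
    (hV : Vertices v) (hv : Function.Injective v) (hv0 : ∀ j, v j ≠ 0)
    (h : MvPolynomial (Fin 4) F) (hh : ∀ w ∈ h.support, InPoly v w) :
    ∃ g : MvPolynomial (Fin r) F, g ≠ 0 ∧ ∀ c : Fin r → ℂ, aeval c g ≠ 0 →
      (∀ s₀ : ℚ, IsPole (zetaOrd (poly v c h) {0}) s₀ →
        ∀ b : Polynomial ℂ, Pool.Agent.H628R4.TP.IsLocalBFunction (poly v c h) b →
          b.eval (s₀ : ℂ) = 0) ∧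
      ∀ s₀ : ℚ, IsPole (zetaOrd (poly v c h) Set.univ) s₀ →
        ((∃ d, (poly v c h).IsHomogeneous d) ∨ GlobOK v h ∧ (s₀ ≠ -2 ∨ NoP2 v)) →
        ∀ b : Polynomial ℂ, Pool.Agent.H628R4.TP.IsBFunction (poly v c h) b →
          b.eval (s₀ : ℂ) = 0 := by
  obtain ⟨g, hg, hgz⟩ := main8 (F := F) hr v hV hv hv0 h hh
  refine ⟨g, hg, fun c hc => ?_⟩
  have key : ∀ Gl E2 : Prop, (Gl → GlobOK v h) → (Gl → ¬ E2 → NoP2 v) →
      (∀ s₀ : ℚ, IsPole (zetaOrd (poly v c h) {0}) s₀ → (E2 ∧ s₀ = -2) ∨
        ∀ b : Polynomial ℂ, Pool.Agent.H628R4.TP.IsLocalBFunction (poly v c h) b →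
          b.eval (s₀ : ℂ) = 0) ∧
      ∀ s₀ : ℚ, IsPole (zetaOrd (poly v c h) Set.univ) s₀ →
        ((∃ d, (poly v c h).IsHomogeneous d) ∨ Gl) → (E2 ∧ s₀ = -2) ∨
        ∀ b : Polynomial ℂ, Pool.Agent.H628R4.TP.IsLocalBFunction (poly v c h) b →
          b.eval (s₀ : ℂ) = 0 := by
    intro Gl E2 hGl hE2
    obtain ⟨S, hS, hz⟩ := hgz Gl E2 hGl hE2 ℂ c hc
    obtain ⟨h1, h2⟩ := hz ℂ {a | a ≠ 0} good_units
    rw [Algebra.algebraMap_self, MvPolynomial.map_id] at h1 h2
    have h3 : ∀ p ∈ S, (E2 ∧ ((p.1 : ℚ) / p.2) = -2) ∨
        ∀ b : Polynomial ℂ, Pool.Agent.H628R4.TP.IsLocalBFunction (poly v c h) b →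
          b.eval ((((p.1 : ℚ) / p.2 : ℚ)) : ℂ) = 0 := by
      intro p hp
      obtain ⟨-, h4, h3⟩ := hS p hp
      refine h3.imp (fun h3 => ⟨h3.1, ?_⟩) fun h3 b hb => ?_
      · have h5 : (p.2 : ℚ) ≠ 0 := by exact_mod_cast h4.ne'
        rw [h3.2]
        push_cast
        field_simp
      · have h1 := h3 b hb
        push_cast
        exact h1
    refine ⟨fun s₀ hs => ?_, fun s₀ hs hH => ?_⟩
    · obtain ⟨p, hp, rfl⟩ := Pool.Agent.W425.GN.pole_in _ {0} S (fun p hp => (hS p hp).2.1)
        h1 s₀ hs
      exact h3 p hp
    · obtain ⟨p, hp, rfl⟩ := Pool.Agent.W425.GN.pole_in _ Set.univ S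
        (fun p hp => (hS p hp).2.1) (h2 hH) s₀ hs
      exact h3 p hp
  obtain ⟨h1, h2⟩ := key False False False.elim fun h => h.elim
  refine ⟨fun s₀ hs => (h1 s₀ hs).resolve_left fun h => h.1, fun s₀ hs hH b hb => ?_⟩
  have hb' := Pool.Agent.TH216.LX.isLocal_of hb
  rcases hH with hH | ⟨hG, h3 | h3⟩
  · exact (h2 s₀ hs (Or.inl hH)).resolve_left (fun h => h.1) b hb'
  · exact ((key (GlobOK v h) True id fun _ h => absurd trivial h).2 s₀ hs
      (Or.inr hG)).resolve_left (fun h => h3 h.2) b hb'
  · exact ((key (GlobOK v h ∧ NoP2 v) False (fun h => h.1) fun h _ => h.2).2 s₀ hs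
      (Or.inr ⟨hG, h3⟩)).resolve_left (fun h => h.1) b hb'

end Pool.Agent.Results.MP_b07157_ag.FourVariablesLocal
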