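import Mathlib
import Pool.Agent.Y229.PU.Conv

/-!
# The strong motivic monodromy conjecture for compositions with generic coefficients

Let `f(x) = Φ(x, p_1(x), …, p_κ(x))`, where `Φ(x, z)` and the `p_i(x)` have given exponents and generic
coefficients (for the `p_i`, or for `Φ`, generic coefficients at the vertices suffice). Such `f` are
in general degenerate with respect to their Newton polyhedra in all coordinates, not reduced, and
their singularities are not isolated. We prove that the poles of the motivic zeta functions of `f`,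
global and with arbitrary constructible sets of origins, are roots of the Bernstein-Sato polynomial
of `f`, under the usual conditions on the facets of ONE Newton polyhedron, that of
`G = Φ(x, z) + ∑ y_i (z_i - p_i(x))`. More generally the theorem holds for all `f` such that `f + ∑ y_i z_i`
becomes, by an automorphism of the polynomial ring, a polynomial `G` with generic coefficients (up
to a torus action); for instance for iterated compositions.

Method. (1) `Z_f` is a combination of the zeta functions of `G` and `G + y z` (stabilisation by jets,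
library `Y229.MS` with helpers 366, 971, 812, 864, 824, 405, 925). (2) The theorem on generic
coefficients (`TH216.MC`) is refined: `(1 - 𝕃⁻¹ T) Z_G(T)` has no denominator coming from the strict
transform, and the coefficients need only be generic up to a torus fixing the part with fixed
coefficients; so the coefficients `1` of the `y_i z_i` are allowed. (3) The condition on the faces
through which all facets have the same level passes from `G` at the level `σ` to `G + y z` at the level
`σ + 1`. (4) If `(s + 1) c(s)` is in the Bernstein-Sato ideal of `f` then `(s + 1) c(s + κ)` is in the one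
of `G`. (5) For compositions all the levels `|a| / N_a` of `G` are larger than `κ`, so the candidate poles
`κ - |a| / N_a` are negative.
-/

set_option autoImplicit false

namespace Pool.Agent.Results.MP_b07157_ag.GenericCompositions

open MvPolynomial Pool.Agent.W428.MOT Pool.Agent.Y229.PU.D
open Pool.Agent.W426.SM (gord)
open Pool.Agent.W375.MG (zetaOrd IsPole)

/-- Q1, and more: for every constructible set `W` of points (`W = Set.univ` in Q1) every pole of the
motivic zeta function `zetaOrd f W` of the arcs with origin in `W` is negative and a root of every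
polynomial `b` with `b(s) f ^ s = P(s) f ^ (s + 1)`, in particular of the Bernstein-Sato polynomial. -/
def PolesAreRoots {n : ℕ} (f : MvPolynomial (Fin n) ℂ) : Prop :=
  ∀ W : Set (Pt ℂ (Fin n)), Constr W → ∀ s₀ : ℚ, IsPole (zetaOrd f W) s₀ →
    s₀ < 0 ∧ ∀ b : Polynomial ℂ, Pool.Agent.H628R4.TP.IsBFunction f b → b.eval (s₀ : ℂ) = 0

/-- **The strong motivic monodromy conjecture for stably generic polynomials and for compositions
with generic coefficients.**

`F` is a field with an embedding in `ℂ`, the field of the fixed coefficients. `Below v h`: the exponents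
of `h` are in the Newton polyhedron of the `v j` and different from the `v j`. `Rays v h`: the level
`|a| / N_a` of each ray `a` of the normal fan (facet), `N_a = gord v a = min_j ⟨a, v j⟩ > 0`, is the level
of an `a'` whose face contains a simplex which is not B1, or the faces all of whose facets have this
level are simplices or B1 (`FaceCond`).

`zetaOrd f W = 𝕃 ^ (-n) ∑_{l ≥ 0} [{φ : φ(0) ∈ W, ord f(φ) = l}] (𝕃 ^ (-n) T) ^ l` over `K₀(Var_ℂ)[𝕃⁻¹]`;
`IsPole Z s₀`: `Z` is not in the ring generated by `T` and the `1 / (1 - 𝕃 ^ a T ^ b)`, `b > 0`,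
`a / b ≠ s₀`. `IsBFunction f b`: `b(s) f ^ s = P(s) f ^ (s + 1)`, `P(s)` in the Weyl algebra, polynomial
in `s`.

* Part 1 (stably generic polynomials). Let `v j ≠ 0` be different exponents in `n + 2 κ` variables,
  `κ ≥ 1`, `h` a polynomial over `F`, `Below v h`, `Rays v h`, and `κ N_a < |a|` for all `a` with `N_a > 0`.
  There is `g ≠ 0` such that `PolesAreRoots f` for all non-constant `f` for which `f + ∑ y_i z_i`
  (`plusYZ f κ`) becomes `∑ c_j X ^ (v j) + h` by an automorphism of `ℂ[x, y, z]`, with
  `g(c_j t ^ (v j)) ≠ 0` for some `t ∈ (F^*) ^ (n + 2 κ)` fixing `h`.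
* Part 2 (compositions). `f = comp m w ι h₀ h a b = Φ(x, p_1(x), …, p_κ(x))` with
  `Φ = ∑_j a_j (x, z) ^ (m j) + h₀(x, z)` (`outer`), `p_i = ∑_{ι l = i} b_l x ^ (w l) + h_i(x)` (`inner`), where
  the `m j ≠ 0` are different, the pairs `(ι l, w l)` are different, and every `i` is some `ι l`;
  `graphExp m w ι` are the exponents of `∑_j a_j (x, z) ^ (m j) + ∑ y_i (z_i - ∑_{ι l = i} b_l x ^ (w l))` in the
  variables `x, y, z` and `graphFix h₀ h = h₀(x, z) - ∑ y_i h_i(x)`; for every `i`, `h_i = 0` or `z_i` does
  not occur in `h₀`. Under `Below` and `Rays` for these there is `g ≠ 0` such that `PolesAreRoots f` if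
  `f` is non-constant and `g(a, b) ≠ 0`. -/
theorem result :
    (∀ (F : Type) [Field F] [Algebra F ℂ] (n κ r : ℕ), 0 < r → 0 < κ →
      ∀ (v : Fin r → Fin (n + (κ + κ)) → ℕ) (h : MvPolynomial (Fin (n + (κ + κ))) F),
      Function.Injective v → (∀ j, v j ≠ 0) → Below v h → Rays v h →
      (∀ a : Fin (n + (κ + κ)) → ℕ, 0 < gord v a → κ * gord v a < ∑ i, a i) →
      ∃ g : MvPolynomial (Fin r) F, g ≠ 0 ∧
        ∀ (c : Fin r → ℂ) (t : Fin (n + (κ + κ)) → F), (∀ i, t i ≠ 0) →
          (∀ w ∈ h.support, ∏ i, t i ^ w i = 1) →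
          aeval (fun j => c j * ∏ i, algebraMap F ℂ (t i) ^ v j i) g ≠ 0 →
          ∀ f : MvPolynomial (Fin n) ℂ, f.totalDegree ≠ 0 →
          ∀ φ : MvPolynomial (Fin (n + (κ + κ))) ℂ ≃ₐ[ℂ] MvPolynomial (Fin (n + (κ + κ))) ℂ,
            φ (plusYZ f κ) = (∑ j, C (c j) * ∏ i, X i ^ v j i) + map (algebraMap F ℂ) h →
            PolesAreRoots f) ∧
    (∀ (F : Type) [Field F] [Algebra F ℂ] (n κ r s : ℕ), 0 < r → 0 < κ →
      ∀ (m : Fin r → Fin n ⊕ Fin κ → ℕ) (w : Fin s → Fin n → ℕ) (ι : Fin s → Fin κ)
        (h₀ : MvPolynomial (Fin n ⊕ Fin κ) F) (h : Fin κ → MvPolynomial (Fin n) F),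
      Function.Injective m → (∀ j, m j ≠ 0) → (Function.Injective fun l => (ι l, w l)) →
      Function.Surjective ι → (∀ i, h i = 0 ∨ ∀ u ∈ h₀.support, u (Sum.inr i) = 0) →
      Below (graphExp m w ι) (graphFix h₀ h) → Rays (graphExp m w ι) (graphFix h₀ h) →
      ∃ g : MvPolynomial (Fin r ⊕ Fin s) F, g ≠ 0 ∧ ∀ (a : Fin r → ℂ) (b : Fin s → ℂ),
        aeval (Sum.elim a b) g ≠ 0 → (comp m w ι h₀ h a b).totalDegree ≠ 0 →
        PolesAreRoots (comp m w ι h₀ h a b)) := by
  refine ⟨?_, ?_⟩
  · intro F _ _ n κ r hr hκ v h hv hv0 hB hL hpos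
    obtain ⟨g, hg, hgc⟩ := top1 F n κ r hr hκ v h hv hv0 hB hL hpos
    exact ⟨g, hg, fun c t ht hht hc f hf φ hφ => poles_of (hgc c t ht hht hc f hf φ hφ)⟩
  · intro F _ _ n κ r s hr hκ m w ι h₀ h hm hm0 hw hι hS hB hL
    obtain ⟨g, hg, hgc⟩ := top2 F n κ r s hr hκ m w ι h₀ h hm hm0 hw hι hS hB hL
    exact ⟨g, hg, fun a b hab hf => poles_of (hgc a b hab hf)⟩

end Pool.Agent.Results.MP_b07157_ag.GenericCompositions
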